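import Mathlib

/-!
# Partial domination of Cartesian products
-/

set_option autoImplicit false

open Finset

namespace Pool.Agent.H743V

/-- The set `D` of vertices dominates the vertex set `A`: each vertex of `A` is in `D` or has a
neighbour in `D`. -/
def Dominates {V : Type} (G : SimpleGraph V) (D : Finset V) (A : Set V) : Prop :=
  ∀ v ∈ A, v ∈ D ∨ ∃ w ∈ D, G.Adj v w

/-- The least size of a set of vertices which dominates `A`. -/
noncomputable def gammaOn {V : Type} (G : SimpleGraph V) (A : Set V) : ℕ :=
  sInf {k | ∃ D : Finset V, D.card = k ∧ Dominates G D A}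

/-- The domination number. -/
noncomputable def gamma {V : Type} (G : SimpleGraph V) : ℕ := gammaOn G Set.univ

/-- The graph `G` satisfies Vizing's conjecture. -/
def SatisfiesVizing {V : Type} (G : SimpleGraph V) : Prop :=
  ∀ (W : Type) [Fintype W] (H : SimpleGraph W), gamma G * gamma H ≤ gamma (G □ H)

/-- The graph `G - u`. -/
def del {V : Type} (G : SimpleGraph V) (u : V) : SimpleGraph {v // v ≠ u} :=
  G.comap Subtype.val

theorem gammaOn_le {V : Type} {G : SimpleGraph V} {A : Set V} {D : Finset V}
    (h : Dominates G D A) : gammaOn G A ≤ D.card :=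
  Nat.sInf_le ⟨D, rfl, h⟩

theorem le_gammaOn {V : Type} [Fintype V] {G : SimpleGraph V} {A : Set V} {k : ℕ}
    (h : ∀ D : Finset V, Dominates G D A → k ≤ D.card) : k ≤ gammaOn G A := by
  have hne : {k | ∃ D : Finset V, D.card = k ∧ Dominates G D A}.Nonempty :=
    ⟨_, Finset.univ, rfl, fun v _ => Or.inl (mem_univ v)⟩
  obtain ⟨D, hD, hdom⟩ := Nat.sInf_mem hne
  have := h D hdom
  rw [hD] at this
  exact this

/-- `m` copies of `G` and a new vertex, adjacent to the vertices of the copies which are not
in `A`. -/
def star {V : Type} (G : SimpleGraph V) (A : Set V) (m : ℕ) :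
    SimpleGraph (Option (Fin m × V)) where
  Adj x y :=
    match x, y with
    | some (i, v), some (j, w) => i = j ∧ G.Adj v w
    | some (_, v), none => v ∉ A
    | none, some (_, v) => v ∉ A
    | none, none => False
  symm := by
    constructor
    rintro (_ | ⟨i, v⟩) (_ | ⟨j, w⟩) h
    · exact h
    · exact h
    · exact h
    · exact ⟨h.1.symm, h.2.symm⟩
  loopless := by
    constructor
    rintro (_ | ⟨i, v⟩) h
    · exact h
    · exact G.loopless.irrefl v h.2

theorem gamma_star {V : Type} [Fintype V] (G : SimpleGraph V) (A : Set V) (m : ℕ) :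
    m * gammaOn G A ≤ gamma (star G A m) := by
  classical
  refine le_gammaOn fun D hD => ?_
  have h1 : ∀ i : Fin m, gammaOn G A ≤
      (univ.filter fun v : V => some (i, v) ∈ D).card := by
    intro i
    refine gammaOn_le fun v hv => ?_
    rcases hD (some (i, v)) (Set.mem_univ _) with h | ⟨y, hy, hadj⟩
    · left
      simpa using h
    · right
      rcases y with _ | ⟨j, w⟩
      · exact absurd hv hadj
      · obtain ⟨rfl, h2⟩ := hadj
        exact ⟨w, by simpa using hy, h2⟩
  have h2 : ∑ i : Fin m, (univ.filter fun v : V => some (i, v) ∈ D).card ≤ D.card := by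
    rw [← Finset.card_sigma]
    refine Finset.card_le_card_of_injOn (fun x => some (x.1, x.2)) ?_ ?_
    · rintro ⟨i, v⟩ h
      simpa using h
    · rintro ⟨i, v⟩ _ ⟨j, w⟩ _ h
      simp only [Option.some.injEq, Prod.mk.injEq] at h
      obtain ⟨rfl, rfl⟩ := h
      rfl
  calc m * gammaOn G A = ∑ _i : Fin m, gammaOn G A := by simp
    _ ≤ _ := Finset.sum_le_sum fun i _ => h1 i
    _ ≤ _ := h2

/-- **Amortisation.** If `H` satisfies Vizing's conjecture, every set which dominates `A × V(H)` has
at least `γ_A(G) γ(H)` elements. -/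
theorem partial_vizing {V W : Type} [Fintype V] [Fintype W] (G : SimpleGraph V)
    (H : SimpleGraph W) (hH : SatisfiesVizing H) (A : Set V) (D : Finset (V × W))
    (hD : Dominates (G □ H) D {x | x.1 ∈ A}) : gammaOn G A * gamma H ≤ D.card := by
  classical
  by_contra hlt
  push Not at hlt
  set m : ℕ := Fintype.card W + 1 with hm
  -- the dominating set
  set E : Finset (W × Option (Fin m × V)) :=
    ((univ : Finset (Fin m)) ×ˢ D).image (fun p => (p.2.2, some (p.1, p.2.1))) ∪
      (univ : Finset W).image (fun w => (w, none)) with hE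
  have hEdom : Dominates (H □ star G A m) E Set.univ := by
    rintro ⟨w, x⟩ _
    rcases x with _ | ⟨i, v⟩
    · left
      rw [hE]
      exact mem_union_right _ (mem_image.2 ⟨w, mem_univ _, rfl⟩)
    · by_cases hv : v ∈ A
      · rcases hD (v, w) hv with h | ⟨⟨v', w'⟩, h, hadj⟩
        · left
          rw [hE]
          exact mem_union_left _ (mem_image.2 ⟨(i, (v, w)), mem_product.2 ⟨mem_univ _, h⟩, rfl⟩)
        · right
          refine ⟨(w', some (i, v')), ?_, ?_⟩
          · rw [hE]
            exact mem_union_left _
              (mem_image.2 ⟨(i, (v', w')), mem_product.2 ⟨mem_univ _, h⟩, rfl⟩)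
          · rw [SimpleGraph.boxProd_adj] at hadj ⊢
            rcases hadj with ⟨h1, h2⟩ | ⟨h1, h2⟩
            · right
              refine ⟨?_, h2⟩
              exact ⟨rfl, h1⟩
            · left
              refine ⟨h1, ?_⟩
              simp only at h2
              rw [h2]
      · right
        refine ⟨(w, none), ?_, ?_⟩
        · rw [hE]
          exact mem_union_right _ (mem_image.2 ⟨w, mem_univ _, rfl⟩)
        · rw [SimpleGraph.boxProd_adj]
          right
          exact ⟨hv, rfl⟩
  have hEcard : E.card ≤ m * D.card + Fintype.card W := by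
    rw [hE]
    refine (card_union_le _ _).trans ?_
    refine Nat.add_le_add (card_image_le.trans ?_) (card_image_le.trans ?_)
    · rw [card_product, card_univ, Fintype.card_fin]
    · rw [card_univ]
  have h1 : gamma H * gamma (star G A m) ≤ m * D.card + Fintype.card W :=
    (hH _ _).trans ((gammaOn_le hEdom).trans hEcard)
  have h2 : gamma H * (m * gammaOn G A) ≤ gamma H * gamma (star G A m) :=
    Nat.mul_le_mul_left _ (gamma_star G A m)
  have h3 : m * (D.card + 1) ≤ m * (gammaOn G A * gamma H) := Nat.mul_le_mul_left _ hlt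
  have h4 : gamma H * (m * gammaOn G A) = m * (gammaOn G A * gamma H) := by ring
  have h5 : m * (D.card + 1) = m * D.card + m := by ring
  omega

theorem gammaOn_compl_ge {V : Type} [Fintype V] (G : SimpleGraph V) (u : V)
    (h : gamma G ≤ gamma (del G u)) : gamma G ≤ gammaOn G {v | v ≠ u} := by
  classical
  refine le_gammaOn fun D hD => ?_
  by_cases hu : u ∈ D
  · refine gammaOn_le fun v _ => ?_
    by_cases hv : v = u
    · left
      rw [hv]
      exact hu
    · exact hD v hv
  · refine h.trans ?_
    have h1 : gamma (del G u) ≤ (D.subtype fun v => v ≠ u).card := by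
      refine gammaOn_le ?_
      rintro ⟨v, hv⟩ _
      rcases hD v hv with h | ⟨w, hw, hadj⟩
      · left
        simpa using h
      · right
        have hwu : w ≠ u := by
          rintro rfl
          exact hu hw
        exact ⟨⟨w, hwu⟩, by simpa using hw, hadj⟩
    refine h1.trans ?_
    rw [Finset.card_subtype]
    exact card_filter_le _ _

/-- **Pairs with a clique partition.** `G'` is a supergraph of `G` with the same vertices, `c` is a
partition of the vertices into at most `k` cliques of `G'`, and every set which dominates `A` in `G'`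
has at least `k` elements. Then every set which dominates `A × V(H)` in `G □ H` has at least `k γ(H)`
elements, for every graph `H`. -/
theorem clique_partition {V W : Type} [Fintype V] [Fintype W] (G G' : SimpleGraph V)
    (hG : G ≤ G') (k : ℕ) (c : V → Fin k) (hc : ∀ v w, c v = c w → v ≠ w → G'.Adj v w)
    (A : Set V) (hA : k ≤ gammaOn G' A) (H : SimpleGraph W) (D : Finset (V × W))
    (hD : Dominates (G □ H) D {x | x.1 ∈ A}) : k * gamma H ≤ D.card := by
  classical
  -- the projections of the cells
  let P : Fin k → Finset W := fun i => univ.filter fun h => ∃ v, c v = i ∧ (v, h) ∈ D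
  let M : Fin k → Finset W := fun i =>
    univ.filter fun h => ¬ (h ∈ P i ∨ ∃ h' ∈ P i, H.Adj h h')
  have hP : ∀ i h, h ∈ P i ↔ ∃ v, c v = i ∧ (v, h) ∈ D := fun i h => by simp [P]
  have hM : ∀ i h, h ∈ M i ↔ ¬ (h ∈ P i ∨ ∃ h' ∈ P i, H.Adj h h') := fun i h => by simp [M]
  have h1 : ∀ i, gamma H ≤ (P i).card + (M i).card := by
    intro i
    refine le_trans (gammaOn_le (D := P i ∪ M i) fun h _ => ?_) (card_union_le _ _)
    by_cases hh : h ∈ M i
    · exact Or.inl (mem_union_right _ hh)
    · rw [hM, not_not] at hh
      rcases hh with hh | ⟨h', hh', hadj⟩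
      · exact Or.inl (mem_union_left _ hh)
      · exact Or.inr ⟨h', mem_union_left _ hh', hadj⟩
  let Dh : W → Finset V := fun h => univ.filter fun v => (v, h) ∈ D
  have hDh : ∀ h v, v ∈ Dh h ↔ (v, h) ∈ D := fun h v => by simp [Dh]
  have h2 : ∀ h, (univ.filter fun i => h ∈ P i).card + (univ.filter fun i => h ∈ M i).card ≤
      (Dh h).card := by
    intro h
    -- the cells which are neither occupied nor missing
    let R : Finset (Fin k) := univ.filter fun i => h ∉ P i ∧ h ∉ M i
    have hcard : (univ.filter fun i => h ∈ P i).card + (univ.filter fun i => h ∈ M i).card +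
        R.card = k := by
      have e1 : Disjoint (univ.filter fun i => h ∈ P i) (univ.filter fun i => h ∈ M i) := by
        rw [Finset.disjoint_filter]
        intro i _ hi hi'
        exact ((hM i h).1 hi') (Or.inl hi)
      have e2 : Disjoint ((univ.filter fun i => h ∈ P i) ∪ (univ.filter fun i => h ∈ M i)) R := by
        rw [Finset.disjoint_left]
        intro i hi hi'
        simp only [mem_union, mem_filter, mem_univ, true_and, R] at hi hi'
        tauto
      rw [← card_union_of_disjoint e1, ← card_union_of_disjoint e2]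
      have : ((univ.filter fun i => h ∈ P i) ∪ (univ.filter fun i => h ∈ M i)) ∪ R =
          (univ : Finset (Fin k)) := by
        ext i
        simp only [mem_union, mem_filter, mem_univ, true_and, R, iff_true]
        tauto
      rw [this, card_univ, Fintype.card_fin]
    -- representatives
    let rep : Finset V := R.biUnion fun i =>
      if hi : ∃ v, c v = i then {Classical.choose hi} else ∅
    have hrep : rep.card ≤ R.card := by
      refine card_biUnion_le.trans ?_
      refine (Finset.sum_le_card_nsmul _ _ 1 fun i _ => ?_).trans (by simp)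
      split_ifs <;> simp
    have hdom : Dominates G' (Dh h ∪ rep) A := by
      intro v hv
      by_cases hp : h ∈ P (c v)
      · obtain ⟨v', hv', hv'D⟩ := (hP _ _).1 hp
        by_cases hvv : v = v'
        · left
          rw [mem_union, hDh, hvv]
          exact Or.inl hv'D
        · right
          exact ⟨v', mem_union_left _ ((hDh _ _).2 hv'D), hc v v' hv'.symm hvv⟩
      · by_cases hm : h ∈ M (c v)
        · have hm' := (hM _ _).1 hm
          rcases hD (v, h) hv with hin | ⟨⟨v', h'⟩, hin, hadj⟩
          · exact absurd ((hP _ _).2 ⟨v, rfl, hin⟩) hp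
          · rw [SimpleGraph.boxProd_adj] at hadj
            rcases hadj with ⟨ha, hb⟩ | ⟨ha, hb⟩
            · simp only at ha hb
              subst hb
              exact Or.inr ⟨v', mem_union_left _ ((hDh _ _).2 hin), hG ha⟩
            · simp only at ha hb
              subst hb
              exact absurd (Or.inr ⟨h', (hP _ _).2 ⟨v, rfl, hin⟩, ha⟩) hm'
        · have hR : c v ∈ R := by simp [R, hp, hm]
          have hi : ∃ w, c w = c v := ⟨v, rfl⟩
          have hmem : Classical.choose hi ∈ rep := by
            rw [mem_biUnion]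
            refine ⟨c v, hR, ?_⟩
            rw [dif_pos hi]
            exact mem_singleton_self _
          have hcc := Classical.choose_spec hi
          by_cases hvv : v = Classical.choose hi
          · left
            rw [mem_union]
            right
            rw [hvv]
            exact hmem
          · right
            exact ⟨_, mem_union_right _ hmem, hc v _ hcc.symm hvv⟩
    have h3 : k ≤ (Dh h).card + R.card :=
      (hA.trans (gammaOn_le hdom)).trans
        ((card_union_le _ _).trans (Nat.add_le_add_left hrep _))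
    omega
  have h4 : ∑ h : W, (Dh h).card = D.card := by
    rw [← Finset.card_sigma]
    refine Finset.card_bij (fun x _ => (x.2, x.1)) ?_ ?_ ?_
    · rintro ⟨h, v⟩ hx
      simpa [Dh] using hx
    · rintro ⟨h, v⟩ _ ⟨h', v'⟩ _ he
      simp only [Prod.mk.injEq] at he
      obtain ⟨rfl, rfl⟩ := he
      rfl
    · rintro ⟨v, h⟩ hx
      exact ⟨⟨h, v⟩, by simpa [Dh] using hx, rfl⟩
  have h5 : ∀ Q : Fin k → Finset W, ∑ i, (Q i).card = ∑ h : W, (univ.filter fun i => h ∈ Q i).card := by
    intro Q
    simp_rw [Finset.card_filter]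
    rw [Finset.sum_comm]
    refine Finset.sum_congr rfl fun i _ => ?_
    rw [← Finset.card_filter]
    congr 1
    ext h
    simp
  calc k * gamma H = ∑ _i : Fin k, gamma H := by simp
    _ ≤ ∑ i : Fin k, ((P i).card + (M i).card) := Finset.sum_le_sum fun i _ => h1 i
    _ = ∑ h : W, ((univ.filter fun i => h ∈ P i).card + (univ.filter fun i => h ∈ M i).card) := by
      rw [Finset.sum_add_distrib, Finset.sum_add_distrib, h5 P, h5 M]
    _ ≤ ∑ h : W, (Dh h).card := Finset.sum_le_sum fun h _ => h2 h
    _ = D.card := h4

theorem exists_not_dominated {V : Type} [Fintype V] {G : SimpleGraph V} {A : Set V}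
    {D : Finset V} (h : D.card < gammaOn G A) : ∃ x ∈ A, x ∉ D ∧ ∀ w ∈ D, ¬ G.Adj x w := by
  by_contra hn
  push Not at hn
  have : Dominates G D A := by
    intro v hv
    by_cases hD : v ∈ D
    · exact Or.inl hD
    · exact Or.inr (hn v hv hD)
  exact absurd (gammaOn_le this) (by omega)

/-- A colouring of the vertices such that every vertex `v` has a non-neighbour in `A` of the other
colour. -/
theorem exists_colouring {V : Type} [Fintype V] {G : SimpleGraph V} {A : Set V}
    (h : 2 ≤ gammaOn G A) : ∃ c : V → Fin 2, ∀ v, ∃ x ∈ A, x ≠ v ∧ ¬ G.Adj v x ∧ c x ≠ c v := by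
  classical
  have h1 : ∀ v : V, ∃ x ∈ A, x ≠ v ∧ ¬ G.Adj v x := by
    intro v
    obtain ⟨x, hx, hxD, hadj⟩ := exists_not_dominated (D := {v}) (G := G) (A := A)
      (by rw [card_singleton]; omega)
    exact ⟨x, hx, by simpa using hxD, fun hh => hadj v (mem_singleton_self v) hh.symm⟩
  choose f hfA hfne hfadj using h1
  let S : Finset (Finset V) := univ.filter fun I =>
    (∀ v ∈ I, v ∈ A) ∧ ∀ v ∈ I, ∀ w ∈ I, v ≠ w → G.Adj v w
  have hSne : S.Nonempty := ⟨∅, by simp [S]⟩
  obtain ⟨I, hI, hmax⟩ := Finset.exists_max_image S Finset.card hSne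
  simp only [S, mem_filter, mem_univ, true_and] at hI hmax
  let c0 : V → Fin 2 := fun v => if v ∈ I then 0 else 1
  refine ⟨fun v => if v ∈ A then c0 v else 1 - c0 (f v), fun v => ?_⟩
  by_cases hvA : v ∈ A
  · by_cases hvI : v ∈ I
    · refine ⟨f v, hfA v, hfne v, hfadj v, ?_⟩
      have hfI : f v ∉ I := fun hh => hfadj v (hI.2 v hvI _ hh (hfne v).symm)
      simp [hvA, hfA v, c0, hvI, hfI]
    · -- maximality
      have : ∃ x ∈ I, ¬ G.Adj v x := by
        by_contra hn
        push Not at hn
        have hlt := hmax (insert v I) ⟨?_, ?_⟩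
        · rw [card_insert_of_notMem hvI] at hlt
          omega
        · intro w hw
          rcases mem_insert.1 hw with rfl | hw
          · exact hvA
          · exact hI.1 w hw
        · intro a ha b hb hab
          rcases mem_insert.1 ha with ha1 | ha1
          · rcases mem_insert.1 hb with hb1 | hb1
            · exact absurd (ha1.trans hb1.symm) hab
            · rw [ha1]
              exact hn b hb1
          · rcases mem_insert.1 hb with hb1 | hb1
            · rw [hb1]
              exact (hn a ha1).symm
            · exact hI.2 a ha1 b hb1 hab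
      obtain ⟨x, hxI, hx⟩ := this
      refine ⟨x, hI.1 x hxI, ?_, hx, ?_⟩
      · rintro rfl
        exact hvI hxI
      · simp [hvA, hI.1 x hxI, c0, hvI, hxI]
  · refine ⟨f v, hfA v, hfne v, hfadj v, ?_⟩
    simp only [hfA v, hvA, if_true, if_false]
    by_cases hfI : f v ∈ I
    · simp [c0, hfI]
    · simp [c0, hfI]

/-- For `k ≤ 2` every set which dominates `A × V(H)` has at least `k γ(H)` elements, if every set which
dominates `A` has at least `k` elements. -/
theorem small {V W : Type} [Fintype V] [Fintype W] (G : SimpleGraph V) (A : Set V) (k : ℕ)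
    (hk : k ≤ 2) (hA : k ≤ gammaOn G A) (H : SimpleGraph W) (D : Finset (V × W))
    (hD : Dominates (G □ H) D {x | x.1 ∈ A}) : k * gamma H ≤ D.card := by
  classical
  interval_cases k
  · simp
  · refine clique_partition G ⊤ le_top 1 (fun _ => 0) (fun v w _ h => h) A ?_ H D hD
    refine le_gammaOn fun E hE => ?_
    by_contra hlt
    have hE0 : E = ∅ := by
      rw [← card_eq_zero]
      omega
    obtain ⟨x, hx, -, -⟩ := exists_not_dominated (D := (∅ : Finset V)) (G := G) (A := A)
      (by rw [card_empty]; omega)
    rcases hE x hx with h | ⟨w, hw, -⟩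
    · rw [hE0] at h
      simp at h
    · rw [hE0] at hw
      simp at hw
  · obtain ⟨c, hc⟩ := exists_colouring hA
    let G' : SimpleGraph V :=
      { Adj := fun v w => G.Adj v w ∨ (v ≠ w ∧ c v = c w)
        symm := by
          constructor
          rintro v w (h | h)
          · exact Or.inl h.symm
          · exact Or.inr ⟨h.1.symm, h.2.symm⟩
        loopless := by
          constructor
          rintro v (h | h)
          · exact G.loopless.irrefl v h
          · exact h.1 rfl }
    refine clique_partition G G' (fun v w h => Or.inl h) 2 c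
      (fun v w h hne => Or.inr ⟨hne, h⟩) A ?_ H D hD
    refine le_gammaOn fun E hE => ?_
    by_contra hlt
    have hcard : E.card ≤ 1 := by omega
    obtain ⟨x0, hx0, -, -⟩ := exists_not_dominated (D := (∅ : Finset V)) (G := G) (A := A)
      (by rw [card_empty]; omega)
    -- `E` is contained in a singleton
    obtain ⟨v, hv⟩ : ∃ v, E ⊆ {v} := by
      rcases Nat.lt_or_ge E.card 1 with h0 | h0
      · refine ⟨x0, ?_⟩
        have : E = ∅ := by
          rw [← card_eq_zero]
          omega
        rw [this]
        exact empty_subset _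
      · obtain ⟨v, rfl⟩ := card_eq_one.1 (le_antisymm hcard h0)
        exact ⟨v, Subset.refl _⟩
    obtain ⟨x, hxA, hxv, hadj, hcx⟩ := hc v
    rcases hE x hxA with h | ⟨w, hw, hw'⟩
    · exact hxv (mem_singleton.1 (hv h))
    · have hwv : w = v := mem_singleton.1 (hv hw)
      subst hwv
      rcases hw' with hw' | hw'
      · exact hadj hw'.symm
      · exact hcx hw'.2

/-- The bound `|D| ≥ γ(G) γ(H)` for all sets `D` of vertices of `G □ H` which dominate
`(V(G) ∖ S) × V(H)`. -/
def BoundFor {V W : Type} (G : SimpleGraph V) (S : Set V) (H : SimpleGraph W) : Prop :=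
  ∀ D : Finset (V × W), Dominates (G □ H) D {x | x.1 ∉ S} → gamma G * gamma H ≤ D.card

/-- The set `S` is attachable in `G`: the bound holds for all finite graphs `H`. -/
def Attachable {V : Type} (G : SimpleGraph V) (S : Set V) : Prop :=
  ∀ (W : Type) [Fintype W] (H : SimpleGraph W), BoundFor G S H

theorem vizing_of_le_two {W : Type} [Fintype W] (H : SimpleGraph W) (h : gamma H ≤ 2) :
    SatisfiesVizing H := by
  intro X _ K
  refine le_gammaOn fun D hD => ?_
  exact small H Set.univ (gamma H) h le_rfl K D fun x _ => hD x (Set.mem_univ x)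

theorem gammaOn_del {V : Type} [Fintype V] (G : SimpleGraph V) (u : V) :
    gammaOn G {v | v ≠ u} ≤ gamma (del G u) := by
  classical
  refine le_gammaOn fun D hD => ?_
  refine (gammaOn_le (D := D.map (Function.Embedding.subtype _)) ?_).trans (card_map _).le
  intro v hv
  rcases hD ⟨v, hv⟩ (Set.mem_univ _) with h | ⟨w, hw, hadj⟩
  · left
    exact mem_map.2 ⟨_, h, rfl⟩
  · right
    exact ⟨w.1, mem_map.2 ⟨w, hw, rfl⟩, hadj⟩

/-- The one vertex graph gives the necessity. -/
theorem gammaOn_ge_of_bound {V : Type} [Fintype V] (G : SimpleGraph V) (S : Set V)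
    (h : BoundFor G S (⊥ : SimpleGraph Unit)) : gamma G ≤ gammaOn G Sᶜ := by
  classical
  have hg : 1 ≤ gamma (⊥ : SimpleGraph Unit) := by
    refine le_gammaOn fun D hD => ?_
    rcases hD () (Set.mem_univ _) with h | ⟨w, hw, -⟩
    · exact card_pos.2 ⟨_, h⟩
    · exact card_pos.2 ⟨_, hw⟩
  refine le_gammaOn fun D hD => ?_
  have h1 := h (D.map ⟨fun v => (v, ()), fun a b hab => (Prod.mk.inj hab).1⟩) ?_
  · rw [card_map] at h1
    nlinarith
  · rintro ⟨v, ⟨⟩⟩ hv
    rcases hD v hv with h | ⟨w, hw, hadj⟩
    · left
      exact mem_map.2 ⟨v, h, rfl⟩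
    · right
      refine ⟨(w, ()), mem_map.2 ⟨w, hw, rfl⟩, ?_⟩
      rw [SimpleGraph.boxProd_adj]
      exact Or.inl ⟨hadj, rfl⟩

/-- The bound for all graphs which satisfy Vizing's conjecture. -/
theorem bound_of_vizing {V : Type} [Fintype V] (G : SimpleGraph V) (S : Set V)
    (hS : gamma G ≤ gammaOn G Sᶜ) (W : Type) [Fintype W] (H : SimpleGraph W)
    (hH : SatisfiesVizing H) : BoundFor G S H :=
  fun D hD => (Nat.mul_le_mul_right _ hS).trans (partial_vizing G H hH Sᶜ D hD)

theorem vizing_unit : SatisfiesVizing (⊥ : SimpleGraph Unit) := by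
  refine vizing_of_le_two _ ((gammaOn_le (D := (univ : Finset Unit)) fun v _ =>
    Or.inl (mem_univ v)).trans ?_)
  simp

end Pool.Agent.H743V
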